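import Pool.Agent.H79.PRK.Defs

/-!
# PRK: statements of the modules, part 2 (types, and the Selmer groups of the twists)

All genera.  `TyK` is the type over `K`, `TyL` (HYP) the type over a completion.
-/

set_option autoImplicit false

namespace Pool.PRK

open Polynomial Matrix Pool.HYP Pool.TOW Pool.AVS Pool.T1 IsDedekindDomain

section Defs2

/-- Every valuation ring of `K` contains `R` or is `O`. -/
def Only (R : Type) [CommRing R] {K : Type} [Field K] [Algebra R K] (O : ValuationSubring K) :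
    Prop :=
  ∀ V : ValuationSubring K, (∃ a : R, algebraMap R K a ∉ V) → V = O

/-- `L`, with the valuation ring `O'`, is a completion of `K` at the place `O` with uniformizer
`π`. -/
structure CompI {K : Type} [Field K] (O : ValuationSubring K) (π : K) (L : Type) [Field L]
    (O' : ValuationSubring L) (ι : K →+* L) : Prop where
  loc : Loc L O' (ι π)
  mem : ∀ x : K, ι x ∈ O' ↔ x ∈ O
  cpl : Cpl K L O' ι

variable {R : Type} [CommRing R] [IsDomain R] {K : Type} [Field K] [Algebra R K]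

/-- Reciprocity, if the primes of `Ram` are in `T'`: the number of primes with type `(1, 1)` is
even. -/
def RecQ {O : ValuationSubring K} (π : K) (Ram : Finset (HeightOneSpectrum R)) : Prop :=
  ∀ (g : ℕ) (D : Dat R O) (h : ℕ), 1 ≤ g → D.Ok g → Ram ⊆ D.T' → ∀ f ∈ Fam π g D h,
    ∀ ϖ : HeightOneSpectrum R → R, Uni D.T ϖ → ∀ (α : K[X]) (x : HeightOneSpectrum R → Ty),
    UOut D.T f α → (∀ P ∈ D.T, TyK P.asIdeal (ϖ P) (D.c P) (D.γ P) f (x P) α) →
    ∑ P ∈ D.T, (x P).1 * (x P).2 = 0

variable (R) in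
/-- The number of the classes is at least `2^#T`. -/
def CgP (O : ValuationSubring K) (π : K) (g : ℕ) : Prop :=
  ∀ (D : Dat R O) (h : ℕ), D.Ok g → ∀ f ∈ FamS π g D h, (RcG K D.T f).Finite →
    2 ^ D.T.card ≤ (RcG K D.T f).ncard

open Classical in
/-- The group of the types of the classes, and the Selmer groups of the twists. -/
def MlgP (O : ValuationSubring K) (π : K) (g : ℕ) (Ram : Finset (HeightOneSpectrum R)) : Prop :=
  ∀ (D : Dat R O) (h : ℕ), D.Ok g → Ram ⊆ D.T' → ∀ f ∈ FamS π g D h,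
    ∀ ϖ : HeightOneSpectrum R → R, Uni D.T ϖ → ¬ Pat K D ϖ (fun _ => 0) f →
    ∃ M : AddSubgroup ({P : HeightOneSpectrum R // P ∈ D.T} → Ty), (∀ m ∈ M, PRL.qf m = 0) ∧
      Nat.card M = 2 ^ D.T.card ∧ (∀ m ∈ M, m ≠ 0 → Pat K D ϖ (ex D.T m) f) ∧
      ∀ S ⊆ D.T, ∀ d : R, Twi D.T D.T' S d →
        (SelG (fk K (f.scaleRoots d))).Finite ∧
        (SelG (fk K (f.scaleRoots d))).ncard = {m | m ∈ M ∧ m ∈ PRL.LS (sb D.T S)}.ncard

end Defs2

/-! ### Completions -/

/-- CPLK: every completion is the completion at a prime of `R` or at infinity.  (`V = O'.comap ι` is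
not `K`, as `K` is dense in `L`; if it contains `R`, `P` is the set of the `a` in `R` with `ι a` in the
maximal ideal, `V` is the local ring at `P`, and by density `ι ϖ` generates the maximal ideal of
`O'`.  As `H59/AVS`, `H53/AVS/CPP` for `Loc`; the residue characteristic is that of `K`.) -/
def CPLKStmt : Prop :=
  ∀ (R : Type) [CommRing R] [IsDedekindDomain R] (K : Type) [Field K] [Algebra R K]
    [IsFractionRing R K] (O : ValuationSubring K) (π : K), GR R O π → Only R O →
    ∀ (L : Type) [Field L] (O' : ValuationSubring L) (ι : K →+* L), Cpl K L O' ι →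
      (∃ (P : HeightOneSpectrum R) (ϖ : R), ϖ ∈ P.asIdeal ∧ ϖ ∉ P.asIdeal ^ 2 ∧
        CompP P ϖ L O' ι) ∨ CompI O π L O' ι

/-- ONLK: the concrete setting.  (`R` is integral over `F[t]`: if `t` is in `V`, so is `R`.) -/
def ONLKStmt : Prop :=
  ∀ (F : Type) [Field F] [Finite F], (2 : F) ≠ 0 → ∀ (K : Type) [Field K]
    [Algebra (RatFunc F) K] [FiniteDimensional (RatFunc F) K] [Algebra.IsSeparable (RatFunc F) K]
    (O : ValuationSubring K), OnePole F O → Only (RR F K) O

/-! ### Classes which are classes of divisors -/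

/-- IRLK: `f` irreducible of odd degree modulo the uniformizer, up to scaling of the roots: a class
of square norm is trivial.  (`α(x/e) = π^n p` modulo `f₀` by UNR of HYP; the norm is a square and
the degree odd, so `n` is even and `p` is a square modulo `(π, f₀)`; SQLK.  As LSA, LSQ.) -/
def IRLKStmt : Prop :=
  ∀ (L : Type) [Field L] (O : ValuationSubring L) (π : L), Loc L O π →
    IsAdicComplete (IsLocalRing.maximalIdeal O) O →
    ∀ (f : L[X]) (e : L) (f₀ : O[X]) (α : L[X]), f.Monic → Odd f.natDegree → e ≠ 0 →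
    f.scaleRoots e = oL O f₀ → Irreducible (rd O f₀) → IsCoprime α f → NSq f α →
    ∃ s : L[X], f ∣ α - s ^ 2

/-- IRDK: at the primes of `T'` and at infinity every class of square norm is the class of a divisor
of every twist.  (IRLK, the divisor `0`: `u = 1`.  At infinity `e = (ι π)^h` by `Top`; the
coefficients of `f` are integral over the completion at `P` by `CompP.int`.) -/
def IRDKStmt : Prop :=
  ∀ (R : Type) [CommRing R] [IsDedekindDomain R] (K : Type) [Field K] [Algebra R K]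
    [IsFractionRing R K] (O : ValuationSubring K) (π : K), GR R O π → ∀ (g : ℕ) (D : Dat R O)
    (h : ℕ), D.Ok g → ∀ f ∈ Fam π g D h, ∀ d : R, d ≠ 0 → ∀ α : K[X], IsCoprime α (fk K f) →
    NSq (fk K f) α → ∀ (L : Type) [Field L] (O' : ValuationSubring L) (ι : K →+* L),
    ((∃ P ∈ D.T', ∃ ϖ : R, CompP P ϖ L O' ι) ∨ CompI O π L O' ι) → LSDK ι d f α

/-- FFA: over a finite field every class of square norm contains `kap u`, `u` monic, such that the
norm of `kap Q` is a square for every prime `Q ∣ u`.  (`χ u` = quadratic character of `N(kap u)`, `N`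
the norm of `k[x]/(f)`, for monic `u`: multiplicative, `0` if `u` is not prime to `f`.  Let
`n = deg f`, `A_j = sum of χ d` over the monic `d` of degree `j`: `A_j = 0` for `j ≥ n` (equal
distribution modulo `f`; `χ` is nontrivial on the constants as `n` is odd).
`r u = sum of χ d over monic d ∣ u` is `≥ 0`, and `> 0` iff every prime `Q` with `χ Q = -1` has an
even exponent in `u` (for `u` prime to `f`).  The sum of `r u` over the monic `u` of degree `2 n` with
`u = p` modulo `f` is `2 q^n Λ`, `Λ = sum over j < n of A_j q^(-j)` (pairs `(d, u/d)` with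
`deg d ≤ n`, and by `χ (u/d) = χ d` those with `deg u/d < n`); the sum of `r u` over all monic `u`
of degree `2 n` prime to `f` is `φ(f) q^n Λ` and is positive (`u` a square).  So there is
`u = u₁ v²` with `r u > 0`.) -/
def FFAStmt : Prop :=
  ∀ (k : Type) [Field k] [Finite k], (2 : k) ≠ 0 → ∀ f p : k[X], f.Monic → Odd f.natDegree →
    IsCoprime p f → NSq f p → ∃ u v : k[X], u.Monic ∧ IsCoprime u f ∧ IsCoprime v f ∧
      f ∣ kap u * v ^ 2 - p ∧ ∀ Q : k[X], Q.Monic → Irreducible Q → Q ∣ u → NSq f (kap Q)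

/-- FFB: then `f` is a square modulo `u`.  (The norm of `kap Q` from `k[x]/(f)` is the norm of `f`
from `k[x]/(Q)`, a resultant (NRC, NMU of HYP); FSQ of T1; prime powers and the Chinese remainder
theorem.) -/
def FFBStmt : Prop :=
  ∀ (k : Type) [Field k] [Finite k], (2 : k) ≠ 0 → ∀ f u : k[X], f.Monic → Odd f.natDegree →
    u.Monic → IsCoprime u f →
    (∀ Q : k[X], Q.Monic → Irreducible Q → Q ∣ u → NSq f (kap Q)) → ∃ w : k[X], u ∣ w ^ 2 - f

/-- FFD: over a finite field every class of square norm is the class of a divisor (FFA, FFB). -/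
def FFDStmt : Prop :=
  ∀ (k : Type) [Field k] [Finite k], (2 : k) ≠ 0 → ∀ f p : k[X], f.Monic → Odd f.natDegree →
    IsCoprime p f → NSq f p → ∃ u w v : k[X], u.Monic ∧ IsCoprime u f ∧ u ∣ w ^ 2 - f ∧
      IsCoprime v f ∧ f ∣ kap u * v ^ 2 - p

/-- SQLK: over a Henselian ring: a unit modulo `f` which is a square modulo `(π, f)` is a square.
(`f` need not be separable modulo `π`: `O[x]/(f)` is a finite algebra over the Henselian ring `O`,
or Newton's iteration if `O` is complete; square root of `1 + π p`.) -/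
def SQLKStmt : Prop :=
  ∀ (L : Type) [Field L] (O : ValuationSubring L) (π : L), Loc L O π →
    IsAdicComplete (IsLocalRing.maximalIdeal O) O → ∀ f p s : O[X], f.Monic →
    IsCoprime (rd O p) (rd O f) → rd O f ∣ rd O p - rd O s ^ 2 →
    ∃ s' : O[X], rd O s' = rd O s ∧ f ∣ p - s' ^ 2

/-- LULK: over a local field the class of a unit of square norm is the class of a divisor.  (FFD over
the residue field, SQLK twice: `f` is a square modulo `u`, and `kap u * v² / p` is a square modulo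
`f`.) -/
def LULKStmt : Prop :=
  ∀ (L : Type) [Field L] (O : ValuationSubring L) (π : L), Loc L O π →
    IsAdicComplete (IsLocalRing.maximalIdeal O) O → ∀ f p : O[X], f.Monic → Odd f.natDegree →
    IsCoprime (rd O p) (rd O f) → NSq (oL O f) (oL O p) → LocSol (oL O f) (oL O p)

/-- LU2K: the converse of LDAK.  (LULK for `f.scaleRoots d` and `p(x/d)`.) -/
def LU2KStmt : Prop :=
  ∀ (R : Type) [CommRing R] [IsDedekindDomain R] (K : Type) [Field K] [Algebra R K]
    [IsFractionRing R K] (P : HeightOneSpectrum R) (ϖ : R) (L : Type) [Field L]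
    (O' : ValuationSubring L) (ι : K →+* L), CompP P ϖ L O' ι → ∀ (f : R[X]) (d : R) (α : K[X]),
    f.Monic → Odd f.natDegree → d ∉ P.asIdeal → IsCoprime α (fk K f) → NSq (fk K f) α →
    US P.asIdeal f α → LSDK ι d f α

/-- TW2C: the converse of TW2 of HYP.  (If `x = 0`, the class is trivial by TY0 and SQLK,
`u = 1`.  If `x = (1, 0)`: `u = X - d (c + t)` with `t = d γ(c)`, near the point of order two:
`f_d(d (c + t)) = d^(2g+1) t γ(c + t)` is a square by Hensel, and the class `d (c + t - x)` has type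
`(1, 0)`; the product with `h` has type `0`.) -/
def TW2CStmt : Prop :=
  ∀ (L : Type) [Field L] (O : ValuationSubring L) (π : L), Loc L O π →
    IsAdicComplete (IsLocalRing.maximalIdeal O) O →
    ∀ (g : ℕ) (c : O) (γ : O[X]), 1 ≤ g → OkL O g γ → ∀ d : L, UI (O : Set L) (d / π) →
    ∀ (h : L[X]) (x : Ty), IsCoprime h (oL O ((X - C c) * γ)) →
      NSq (oL O ((X - C c) * γ)) h → TyL O π c γ x h → x.2 = 0 →
      ∃ u w s : L[X], u.Monic ∧ IsCoprime u ((oL O ((X - C c) * γ)).scaleRoots d) ∧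
        u ∣ w ^ 2 - (oL O ((X - C c) * γ)).scaleRoots d ∧
        oL O ((X - C c) * γ) ∣ kap (u.comp (C d * X)) - h * s ^ 2

/-- LT2K: the converse of LDBK (from TW2C). -/
def LT2KStmt : Prop :=
  ∀ (R : Type) [CommRing R] [IsDedekindDomain R] (K : Type) [Field K] [Algebra R K]
    [IsFractionRing R K] (P : HeightOneSpectrum R) (ϖ : R) (L : Type) [Field L]
    (O' : ValuationSubring L) (ι : K →+* L), CompP P ϖ L O' ι → ∀ (g : ℕ) (f : R[X]) (d : R)
    (α : K[X]) (c : O') (γ : O'[X]) (x : Ty), 1 ≤ g → f.Monic → f.natDegree = 2 * g + 1 →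
    OkL O' g γ → (fk K f).map ι = oL O' ((X - C c) * γ) → d ∈ P.asIdeal → d ∉ P.asIdeal ^ 2 →
    IsCoprime α (fk K f) → NSq (fk K f) α →
    TyL O' (ι (algebraMap R K ϖ)) c γ x (α.map ι) → x.2 = 0 → LSDK ι d f α

/-! ### Types over `K` -/

/-- TKLK: the type over `K` and the type over a completion.  (`c'`, `γ'` by LDE of HYP.  Over the
completion `γ² + ϖ` has order one at `γ'` and is congruent to `γ(c)²` at `c'`.  From `TyL` to
`TyK`: USL ↔ US (INOK) for `α` or `α (γ² + ϖ)`; the order of `α` at `c'` is even as the norm is a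
square.) -/
def TKLKStmt : Prop :=
  ∀ (R : Type) [CommRing R] [IsDedekindDomain R] (K : Type) [Field K] [Algebra R K]
    [IsFractionRing R K] (P : HeightOneSpectrum R) (ϖ : R) (L : Type) [Field L]
    (O' : ValuationSubring L) (ι : K →+* L), CompP P ϖ L O' ι →
    ∀ (g : ℕ) (c : R) (γ f : R[X]), 1 ≤ g → OkP (2 * g) P.asIdeal γ → f.Monic →
    f.natDegree = 2 * g + 1 → Zer P.asIdeal (f - (X - C c) * γ) →
    ∃ (c' : O') (γ' : O'[X]), OkL O' g γ' ∧ (fk K f).map ι = oL O' ((X - C c') * γ') ∧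
      ∀ α : K[X], IsCoprime α (fk K f) → NSq (fk K f) α → ∀ x : Ty,
        (TyK P.asIdeal ϖ c γ f x α ↔ TyL O' (ι (algebraMap R K ϖ)) c' γ' x (α.map ι))

/-- TAK: the types over `K`.  (TKLK, CMPK, and CLA, TYQ, TYS, TYM, TYU, TY0 of HYP.) -/
def TAKStmt : Prop :=
  ∀ (R : Type) [CommRing R] [IsDedekindDomain R] (K : Type) [Field K] [Algebra R K]
    [IsFractionRing R K] (O : ValuationSubring K) (π : K), GR R O π →
    ∀ (P : HeightOneSpectrum R) (ϖ : R), ϖ ∈ P.asIdeal → ϖ ∉ P.asIdeal ^ 2 →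
    ∀ (g : ℕ) (c : R) (γ f : R[X]), 1 ≤ g → OkP (2 * g) P.asIdeal γ → f.Monic →
    f.natDegree = 2 * g + 1 → Zer P.asIdeal (f - (X - C c) * γ) →
    (∀ α : K[X], IsCoprime α (fk K f) → NSq (fk K f) α → ∃! x : Ty, TyK P.asIdeal ϖ c γ f x α) ∧
    (∀ (α β : K[X]) (x y : Ty), IsCoprime α (fk K f) → NSq (fk K f) α →
      IsCoprime β (fk K f) → NSq (fk K f) β → TyK P.asIdeal ϖ c γ f x α →
      TyK P.asIdeal ϖ c γ f y β → TyK P.asIdeal ϖ c γ f (x + y) (α * β)) ∧
    (∀ (α β s : K[X]) (x : Ty), IsCoprime α (fk K f) → NSq (fk K f) α →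
      IsCoprime s (fk K f) → fk K f ∣ β - α * s ^ 2 → TyK P.asIdeal ϖ c γ f x α →
      TyK P.asIdeal ϖ c γ f x β) ∧
    (∀ (α : K[X]) (x : Ty), IsCoprime α (fk K f) → NSq (fk K f) α →
      TyK P.asIdeal ϖ c γ f x α → (US P.asIdeal f α ↔ x.1 = 0)) ∧
    ∀ α : K[X], IsCoprime α (fk K f) → NSq (fk K f) α →
      TyK P.asIdeal ϖ c γ f 0 α → TR P.asIdeal f α

/-- RECQ: the quadratic form vanishes.  (As RECA: RCPK with the set of the primes of `D.T` where
`x.1 = 1`, for `α` alone, without polarisation; TKLK.) -/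
def RECQStmt : Prop :=
  ∀ (F : Type) [Field F] [Finite F], (2 : F) ≠ 0 → ∀ (K : Type) [Field K]
    [Algebra (RatFunc F) K] [FiniteDimensional (RatFunc F) K] [Algebra.IsSeparable (RatFunc F) K]
    (O : ValuationSubring K), OnePole F O → ∀ π : K, Unif O π →
    ∃ Ram : Finset (HeightOneSpectrum (RR F K)), RecQ (R := RR F K) (O := O) π Ram

/-! ### The Selmer groups of the twists -/

/-- SGK: the Selmer group of the twist in terms of the classes for `f`.  (`K[x]/(f)` is isomorphic to
`K[x]/(f.scaleRoots d)` by `x ↦ x/d`; the norm; as TWSK.) -/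
def SGKStmt : Prop :=
  ∀ (R : Type) [CommRing R] [IsDomain R] (K : Type) [Field K] [Algebra R K]
    [IsFractionRing R K] (f : R[X]) (d : R), f.Monic → d ≠ 0 →
    ∃ e : ((AdjoinRoot (fk K f))ˣ ⧸ SqG (fk K f)) ≃
      ((AdjoinRoot (fk K (f.scaleRoots d)))ˣ ⧸ SqG (fk K (f.scaleRoots d))),
      ∀ (u : (AdjoinRoot (fk K f))ˣ) (α : K[X]), AdjoinRoot.mk (fk K f) α =
        (u : AdjoinRoot (fk K f)) →
        (e (QuotientGroup.mk u) ∈ SelG (fk K (f.scaleRoots d)) ↔ NSq (fk K f) α ∧
          ∀ (L : Type) [Field L] (O' : ValuationSubring L) (ι : K →+* L), Cpl K L O' ι →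
            LSDK ι d f α)

/-- SELK: the local conditions.  (`⇒`: CMPK and LDAK, IRUK, LDBK, TKLK; `⇐`: CPLK and IRDK, LU2K,
LT2K; `Twi`.) -/
def SELKStmt : Prop :=
  ∀ (R : Type) [CommRing R] [IsDedekindDomain R] (K : Type) [Field K] [Algebra R K]
    [IsFractionRing R K] (O : ValuationSubring K) (π : K), GR R O π → Only R O →
    ∀ (g : ℕ) (D : Dat R O) (h : ℕ), 1 ≤ g → D.Ok g → ∀ f ∈ FamS π g D h,
    ∀ ϖ : HeightOneSpectrum R → R, Uni D.T ϖ → ∀ S ⊆ D.T, ∀ d : R, Twi D.T D.T' S d →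
    ∀ α : K[X], IsCoprime α (fk K f) → NSq (fk K f) α →
    ((∀ (L : Type) [Field L] (O' : ValuationSubring L) (ι : K →+* L), Cpl K L O' ι →
        LSDK ι d f α) ↔
      UOut D.T f α ∧ ∀ P ∈ D.T, ∃ x : Ty, TyK P.asIdeal (ϖ P) (D.c P) (D.γ P) f x α ∧
        (P ∈ S → x.2 = 0) ∧ (P ∉ S → x.1 = 0))

/-- MLGK: the group `M` of the types.  (`M` is the image of `RcG K D.T f` under the types, an
injective homomorphism as `Pat` fails for `0`; `#M ≤ 2^#T` as `qf = 0` on `M`, `#M ≥ 2^#T` by `CgP`;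
SGK, SELK.  As `H32/PRL/MLG`.) -/
def MLGKStmt : Prop :=
  ∀ (R : Type) [CommRing R] [IsDedekindDomain R] (K : Type) [Field K] [Algebra R K]
    [IsFractionRing R K] (O : ValuationSubring K) (π : K), GR R O π → Only R O →
    ∀ (g : ℕ) (Ram : Finset (HeightOneSpectrum R)), 1 ≤ g → RecQ (R := R) (O := O) π Ram →
    CgP R O π g → MlgP O π g Ram

end Pool.PRK
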