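import Pool.Agent.H52.T1.LDBK

/-!
# PRK: change of the uniformizer in a completion
-/

set_option autoImplicit false

namespace Pool.PRK

open Polynomial Pool.HYP Pool.TOW Pool.AVS Pool.T1 IsDedekindDomain

theorem loc_chg {L : Type} [Field L] {O : ValuationSubring L} {π ρ : L} (h : Loc L O π)
    (hu : UI (O : Set L) (ρ / π)) : Loc L O ρ := by
  obtain ⟨h0, h1, h2⟩ := hu
  have h1' : ρ / π ∈ O := h1
  have h2' : (ρ / π)⁻¹ ∈ O := h2
  have hρ : ρ ≠ 0 := by
    rintro rfl
    exact h0 (zero_div _)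
  have hmul : ∀ x : L, x / ρ = x / π * (ρ / π)⁻¹ := by
    intro x
    field_simp [h.pi_ne]
  have hmul' : ∀ x : L, x / π = x / ρ * (ρ / π) := by
    intro x
    field_simp [h.pi_ne]
  refine ⟨h.two, hρ, ?_, ?_, ?_, h.hens, h.fin⟩
  · have h3 : ρ = ρ / π * π := by rw [div_mul_cancel₀ _ h.pi_ne]
    rw [h3]
    exact O.mul_mem _ _ h1' h.pi_mem
  · intro x hx hx0
    rw [h.unif x hx hx0]
    constructor
    · intro h3
      rw [hmul]
      exact O.mul_mem _ _ h3 h2'
    · intro h3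
      rw [hmul']
      exact O.mul_mem _ _ h3 h1'
  · intro x hx0
    obtain ⟨n, hn1, hn2⟩ := h.arch x hx0
    have hz : ∀ n : ℤ, (ρ / π) ^ n ∈ O := by
      intro n
      cases n with
      | ofNat m =>
        rw [Int.ofNat_eq_natCast, zpow_natCast]
        exact O.toSubring.pow_mem h1' m
      | negSucc m =>
        rw [zpow_negSucc, ← inv_pow]
        exact O.toSubring.pow_mem h2' _
    have h3 : x / ρ ^ n = x / π ^ n * (ρ / π) ^ (-n) := by
      rw [zpow_neg, div_zpow, inv_div]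
      field_simp [zpow_ne_zero n h.pi_ne, zpow_ne_zero n hρ]
    refine ⟨n, ?_, ?_⟩
    · rw [h3]
      exact O.mul_mem _ _ hn1 (hz _)
    · rw [h3, mul_inv, ← zpow_neg, neg_neg]
      exact O.mul_mem _ _ hn2 (hz _)

/-- Change of the uniformizer. -/
theorem compP_chg {R : Type} [CommRing R] [IsDedekindDomain R] {K : Type} [Field K] [Algebra R K]
    [IsFractionRing R K] {P : HeightOneSpectrum R} {ϖ d : R} {L : Type} [Field L]
    {O' : ValuationSubring L} {ι : K →+* L} (HC : CompP P ϖ L O' ι) (h1 : d ∈ P.asIdeal)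
    (h2 : d ∉ P.asIdeal ^ 2) : CompP P d L O' ι := by
  have hu := LdbkAux.uniformizer HC h1 h2
  have hl := loc_chg HC.loc hu
  obtain ⟨h0, h3, h4⟩ := hu
  have h3' : ι (algebraMap R K d) / ι (algebraMap R K ϖ) ∈ O' := h3
  have h4' : (ι (algebraMap R K d) / ι (algebraMap R K ϖ))⁻¹ ∈ O' := h4
  refine ⟨hl, HC.int, fun a => ?_, HC.cpl⟩
  rw [← HC.mem a]
  constructor
  · intro h5
    have h6 : ι (algebraMap R K a) / ι (algebraMap R K ϖ) =
        ι (algebraMap R K a) / ι (algebraMap R K d) *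
          (ι (algebraMap R K d) / ι (algebraMap R K ϖ)) := by
      field_simp [HC.loc.pi_ne, hl.pi_ne]
    rw [h6]
    exact O'.mul_mem _ _ h5 h3'
  · intro h5
    have h6 : ι (algebraMap R K a) / ι (algebraMap R K d) =
        ι (algebraMap R K a) / ι (algebraMap R K ϖ) *
          (ι (algebraMap R K d) / ι (algebraMap R K ϖ))⁻¹ := by
      field_simp [HC.loc.pi_ne, hl.pi_ne]
    rw [h6]
    exact O'.mul_mem _ _ h5 h4'

end Pool.PRK
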