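import Pool.Agent.H72.PRK.S2
import Pool.Agent.H72.PRK.Chg

/-!
# PRK, row SELK: the local conditions of the Selmer groups of the twists
-/

set_option autoImplicit false

namespace Pool.PRK

open Polynomial Matrix Pool.HYP Pool.TOW Pool.AVS Pool.T1 IsDedekindDomain

/-- **SELK.** -/
theorem selk (hCPL : CPLKStmt) (hIRD : IRDKStmt) (hLU2 : LU2KStmt) (hLT2 : LT2KStmt)
    (hTAK : TAKStmt) (hTKL : TKLKStmt) (hCMP : CMPKStmt) (hLDA : LDAKStmt) (hLDB : LDBKStmt)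
    (hIRU : IRUKStmt) : SELKStmt := by
  intro R _ _ K _ _ _ O π hGR hOnly g D h hg hok f hf ϖ hϖ S hST d hd α hα hN
  obtain ⟨hfF, hsm⟩ := hf
  have hfm : f.Monic := hfF.1.1
  have hfn : f.natDegree = 2 * g + 1 := hfF.1.2.1
  have hodd : Odd f.natDegree := by
    rw [hfn]
    exact ⟨g, rfl⟩
  obtain ⟨hd0, hdS, hdT, hdO⟩ := hd
  have hTA := fun P (hP : P ∈ D.T) => hTAK R K O π hGR P (ϖ P) (hϖ P hP).1 (hϖ P hP).2 g (D.c P)
    (D.γ P) f hg (hok.2.1 P hP) hfm hfn (hfF.2.2.1 P hP)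
  constructor
  · intro hL
    have hUS : ∀ P : HeightOneSpectrum R, P ∉ S → US P.asIdeal f α := by
      intro P hPS
      obtain ⟨ϖ₀, L, hF, O', ι, -, -, hC⟩ := hCMP R K O π hGR P
      by_cases hPT : P ∈ D.T
      · exact hLDA R K P ϖ₀ L O' ι hC g f d α hfm hfn (hsm P) (hdT P hPT hPS) hα hN
          (hL L O' ι hC.cpl)
      · by_cases hPT' : P ∈ D.T'
        · exact hIRU R K P ϖ₀ L O' ι hC g f (D.ρ P) α hfm hfn (hok.2.2.1 P hPT')
            (hfF.2.2.2 P hPT') hα hN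
        · exact hLDA R K P ϖ₀ L O' ι hC g f d α hfm hfn (hsm P) (hdO P hPT hPT') hα hN
            (hL L O' ι hC.cpl)
    refine ⟨⟨hα, hN, fun P hP => hUS P fun h1 => hP (hST h1)⟩, fun P hP => ?_⟩
    obtain ⟨hT1, -, -, hT4, -⟩ := hTA P hP
    obtain ⟨x, hx, -⟩ := hT1 α hα hN
    refine ⟨x, hx, fun hPS => ?_, fun hPS => (hT4 α x hα hN hx).1 (hUS P hPS)⟩
    obtain ⟨ϖ₀, L, hF, O', ι, -, -, hC₀⟩ := hCMP R K O π hGR P
    have hC := compP_chg hC₀ (hϖ P hP).1 (hϖ P hP).2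
    obtain ⟨c', γ', hk, hfL, hiff⟩ := hTKL R K P (ϖ P) L O' ι hC g (D.c P) (D.γ P) f hg
      (hok.2.1 P hP) hfm hfn (hfF.2.2.1 P hP)
    exact hLDB R K P (ϖ P) L O' ι hC g f d α c' γ' x hg hfm hfn hk hfL (hdS P hPS).1
      (hdS P hPS).2 hα hN (hL L O' ι hC.cpl) ((hiff α hα hN x).1 hx)
  · rintro ⟨⟨-, -, hU⟩, hT⟩ L _ O' ι hCpl
    rcases hCPL R K O π hGR hOnly L O' ι hCpl with ⟨P, ϖ₀, -, -, hC₀⟩ | hI
    · by_cases hPT' : P ∈ D.T'
      · exact hIRD R K O π hGR g D h hok f hfF d hd0 α hα hN L O' ι (Or.inl ⟨P, hPT', ϖ₀, hC₀⟩)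
      · by_cases hPT : P ∈ D.T
        · obtain ⟨x, hx, hx1, hx2⟩ := hT P hPT
          by_cases hPS : P ∈ S
          · have hC := compP_chg hC₀ (hϖ P hPT).1 (hϖ P hPT).2
            obtain ⟨c', γ', hk, hfL, hiff⟩ := hTKL R K P (ϖ P) L O' ι hC g (D.c P) (D.γ P) f hg
              (hok.2.1 P hPT) hfm hfn (hfF.2.2.1 P hPT)
            exact hLT2 R K P (ϖ P) L O' ι hC g f d α c' γ' x hg hfm hfn hk hfL (hdS P hPS).1
              (hdS P hPS).2 hα hN ((hiff α hα hN x).1 hx) (hx1 hPS)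
          · exact hLU2 R K P ϖ₀ L O' ι hC₀ f d α hfm hodd (hdT P hPT hPS) hα hN
              (((hTA P hPT).2.2.2.1 α x hα hN hx).2 (hx2 hPS))
        · exact hLU2 R K P ϖ₀ L O' ι hC₀ f d α hfm hodd (hdO P hPT hPT') hα hN (hU P hPT)
    · exact hIRD R K O π hGR g D h hok f hfF d hd0 α hα hN L O' ι (Or.inr hI)

end Pool.PRK
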